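import Pool.Agent.Lib.MP_0f948c_co.Cells

namespace Pool.Agent.Results.MP_0f948c_co.BurnsideLogConcavity

open Finset Pool.Agent.Lib.MP_0f948c_co

/-- Uniform matroid of rank `r ≥ 7` on `n ≥ 2r - 2` points.  `FY k` is the set of exponent
functions `m` of the Feichtner-Yuzvinsky monomials of degree `k`: the support is a chain of flats,
and the exponent of a flat is less than its rank minus the rank of each smaller member (and of the
empty flat).  There is no injection `FY 1 × FY 3 → FY 2 × FY 2` that commutes with all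
permutations of the points. -/
theorem result (r n : ℕ) (hr : 7 ≤ r) (hn : 2 * r ≤ n + 2)
    (FY : ℕ → Set (Finset (Fin n) → ℕ))
    (hFY : ∀ k m, m ∈ FY k ↔ ∑ F, m F = k ∧ ∀ F, m F ≠ 0 →
      (F = univ ∨ F.card < r) ∧ m F < min F.card r ∧ ∀ G, m G ≠ 0 → (G ⊆ F ∨ F ⊆ G) ∧
        (G ⊂ F → m F + min G.card r < min F.card r))
    (act : Equiv.Perm (Fin n) → (Finset (Fin n) → ℕ) → Finset (Fin n) → ℕ)
    (hact : ∀ σ m F, act σ m F = m (F.map σ.symm.toEmbedding)) :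
    ¬ ∃ φ : (Finset (Fin n) → ℕ) × (Finset (Fin n) → ℕ) →
        (Finset (Fin n) → ℕ) × (Finset (Fin n) → ℕ),
      Set.MapsTo φ (FY 1 ×ˢ FY 3) (FY 2 ×ˢ FY 2) ∧ Set.InjOn φ (FY 1 ×ˢ FY 3) ∧
      ∀ σ, ∀ p ∈ FY 1 ×ˢ FY 3,
        φ (act σ p.1, act σ p.2) = (act σ (φ p).1, act σ (φ p).2) := by
  rintro ⟨φ, mp, ij, eq⟩
  have inv : ∀ σ k m, m ∈ FY k → act σ m ∈ FY k := fun σ k m hm => by
    obtain ⟨s, h⟩ := (hFY k m).1 hm
    refine (hFY k _).2 ⟨?_, fun F hF => ?_⟩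
    · rw [← s, ← Equiv.sum_comp σ.symm.finsetCongr m]
      exact sum_congr rfl fun F _ => hact σ m F
    · rw [hact] at hF ⊢
      obtain ⟨a, b, c⟩ := h _ hF
      rw [card_map] at a b
      refine ⟨a.imp_left fun e => ?_, b, fun G hG => ?_⟩
      · exact map_injective _ (e.trans (map_univ_equiv _).symm)
      · rw [hact] at hG
        simpa only [map_subset_map, map_ssubset_map, card_map] using c _ hG
  have ch : ∀ k m, m ∈ FY k → ∀ F G, m F ≠ 0 → m G ≠ 0 → G ⊆ F ∨ F ⊆ G :=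
    fun k m hm F G hF hG => ((((hFY k m).1 hm).2 F hF).2.2 G hG).1
  have fx : ∀ k m, m ∈ FY k → ∀ a b, act (Equiv.swap a b) m = m ↔ Same m a b :=
    fun k m hm a b => by
      rw [← fix_iff (ch k m hm), show act (Equiv.swap a b) m =
        fun F => m (F.map (Equiv.swap a b).toEmbedding) from funext fun F => hact _ m F]
  obtain ⟨H, h2, hH, mH⟩ := exists_hyper hr hn
  have c2 : #(I n 2) = 2 := card_I (by omega)
  have c4 : #(I n 4) = 4 := card_I (by omega)
  have c6 : #(I n 6) = 6 := card_I (by omega)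
  let x : Finset (Fin n) → ℕ := fun F => if F = H then 1 else 0
  let z : Finset (Fin n) → ℕ := fun F =>
    (if F = I n 2 then 1 else 0) + (if F = I n 4 then 1 else 0) + if F = I n 6 then 1 else 0
  have sx : ∀ F, x F ≠ 0 ↔ F = H := fun F => by simp [x]
  have n1 : I n 2 ≠ I n 4 := fun e => by rw [e] at c2; omega
  have n2 : I n 2 ≠ I n 6 := fun e => by rw [e] at c2; omega
  have n3 : I n 4 ≠ I n 6 := fun e => by rw [e] at c4; omega
  have sz : ∀ F, z F ≠ 0 ↔ F = I n 2 ∨ F = I n 4 ∨ F = I n 6 := fun F => by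
    simp only [z, ne_eq, Nat.add_eq_zero_iff, ite_eq_right_iff, one_ne_zero, imp_false]
    tauto
  have sz' : ∀ F, z F ≠ 0 → ∃ i, F = I n i ∧ #F = i ∧ (i = 2 ∨ i = 4 ∨ i = 6) ∧ z F = 1 :=
    fun F hF => by
      rcases (sz F).1 hF with e | e | e
      · exact ⟨2, e, e ▸ c2, by omega, by simp only [z, e, n1, n2, if_true, if_false]⟩
      · exact ⟨4, e, e ▸ c4, by omega, by simp only [z, e, n1.symm, n3, if_true, if_false]⟩
      · exact ⟨6, e, e ▸ c6, by omega, by simp only [z, e, n2.symm, n3.symm, if_true, if_false]⟩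
  have sub : ∀ i j, i ≤ j → I n i ⊆ I n j := fun i j e a ha => mem_I.2 ((mem_I.1 ha).trans_le e)
  have hx : x ∈ FY 1 := (hFY 1 x).2 ⟨by simp [x], fun F hF => by
    obtain rfl := (sx F).1 hF
    refine ⟨Or.inr hH, by simp [x]; omega, fun G hG => ?_⟩
    obtain rfl := (sx G).1 hG
    exact ⟨Or.inl Subset.rfl, fun q => absurd rfl q.ne⟩⟩
  have hz : z ∈ FY 3 := (hFY 3 z).2 ⟨by simp [z, sum_add_distrib], fun F hF => by
    obtain ⟨i, e, ci, hi, zi⟩ := sz' F hF
    refine ⟨Or.inr (by omega), by omega, fun G hG => ?_⟩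
    obtain ⟨j, e', cj, hj, -⟩ := sz' G hG
    refine ⟨?_, fun q => ?_⟩
    · rw [e, e']
      exact (le_total j i).imp (sub j i) (sub i j)
    · have := card_lt_card q
      omega⟩
  have hp : (x, z) ∈ FY 1 ×ˢ FY 3 := ⟨hx, hz⟩
  obtain ⟨q1, q2⟩ := mp hp
  obtain ⟨row, r1, r2, r3⟩ := exists_row (by omega : 0 < r) (ch 2 _ q1)
    (fun F hF => (((hFY 2 _).1 q1).2 F hF).1) ((hFY 2 _).1 q1).1
  obtain ⟨col, l1, l2, l3⟩ := exists_row (by omega : 0 < r) (ch 2 _ q2)
    (fun F hF => (((hFY 2 _).1 q2).2 F hF).1) ((hFY 2 _).1 q2).1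
  refine no_table hr hn r1 l1 r3 l3 fun a b => ?_
  have key : (Same (φ (x, z)).1 a b ∧ Same (φ (x, z)).2 a b) ↔ (Same x a b ∧ Same z a b) := by
    rw [← fx 2 _ q1, ← fx 2 _ q2, ← fx 1 _ hx, ← fx 3 _ hz]
    have e := eq (Equiv.swap a b) _ hp
    constructor
    · rintro ⟨e1, e2⟩
      rw [e1, e2] at e
      exact Prod.mk.inj (ij (Set.mk_mem_prod (inv _ 1 _ hx) (inv _ 3 _ hz)) hp e)
    · rintro ⟨e1, e2⟩
      dsimp only at e
      rw [e1, e2] at e
      exact ⟨(congrArg Prod.fst e).symm, (congrArg Prod.snd e).symm⟩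
  rw [← r2, ← l2, key]
  simp only [Same, sx, sz, forall_eq_or_imp, forall_eq, mH, mem_I]
  omega

end Pool.Agent.Results.MP_0f948c_co.BurnsideLogConcavity
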